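import Mathlib

set_option autoImplicit false

/-!
# MP_9404a8_an: the Koebe bound for the higher-order Schwarzian derivatives fails

For `p = 1`, `q = 2` the inequality of Q1 is false. The function is
`f z = z (1 - c z) / (1 - e z) ^ 2`, `c = 399/401`, `e = (399 - 40 i)/401`, which maps the unit disc
onto the complement of a half-line, and the point is `z = 7/8`.
Here the bracket of the problem is `(1 - c (z + w) + z w) / ((1 - c z) (1 - c w))`.
-/

namespace Pool.Agent.Results.MP_9404a8_an.KoebeBoundFails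

open Complex Metric Set

/-- The class `S`: holomorphic univalent functions on the unit disc with `f 0 = 0`, `f' 0 = 1`. -/
def ClassS (f : ℂ → ℂ) : Prop :=
  DifferentiableOn ℂ f (ball 0 1) ∧ InjOn f (ball 0 1) ∧ f 0 = 0 ∧ deriv f 0 = 1

/-- `z / f z`, read as `1` at `z = 0`. -/
noncomputable def zOver (f : ℂ → ℂ) (z : ℂ) : ℂ := if z = 0 then 1 else z / f z

/-- The expression in square brackets in the definition of `F`:
`(f z - f w) / (z - w) * (z / f z) * (w / f w)` for `z ≠ w` and `f' z * (z / f z) ^ 2` for `z = w`. -/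
noncomputable def bracket (f : ℂ → ℂ) (z w : ℂ) : ℂ :=
  if z = w then deriv f z * zOver f z ^ 2
  else (f z - f w) / (z - w) * zOver f z * zOver f w

/-- `F` is the branch of the logarithm of the bracket that is holomorphic on the bidisc and
vanishes at the origin. -/
def IsLogBranch (f : ℂ → ℂ) (F : ℂ × ℂ → ℂ) : Prop :=
  DifferentiableOn ℂ F (ball 0 1 ×ˢ ball 0 1) ∧ F (0, 0) = 0 ∧
    ∀ z ∈ ball (0 : ℂ) 1, ∀ w ∈ ball (0 : ℂ) 1, exp (F (z, w)) = bracket f z w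

/-- The higher-order Schwarzian derivative `∂^{p+q} F / ∂z^p ∂w^q`, taken at the diagonal point
`(z, z)`. -/
noncomputable def schwarzian (F : ℂ × ℂ → ℂ) (p q : ℕ) (z : ℂ) : ℂ :=
  iteratedDeriv p (fun ζ => iteratedDeriv q (fun ω => F (ζ, ω)) z) z

/-- The branch is unique on the bidisc. -/
theorem branch_unique {f : ℂ → ℂ} {F G : ℂ × ℂ → ℂ} (hF : IsLogBranch f F)
    (hG : IsLogBranch f G) : EqOn F G (ball 0 1 ×ˢ ball 0 1) := by
  have hd : IsDiscrete ((AddSubgroup.zmultiples (2 * Real.pi * I) : AddSubgroup ℂ) : Set ℂ) :=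
    ⟨NormedSpace.discreteTopology_zmultiples _⟩
  have hm : MapsTo (fun p => F p - G p) (ball (0:ℂ) 1 ×ˢ ball (0:ℂ) 1)
      ((AddSubgroup.zmultiples (2 * Real.pi * I) : AddSubgroup ℂ) : Set ℂ) := by
    rintro ⟨z, w⟩ ⟨hz, hw⟩
    have h1 : exp (F (z, w) - G (z, w)) = 1 := by
      have h2 := hF.2.2 z hz w hw
      have h3 := hG.2.2 z hz w hw
      rw [exp_sub, h2, ← h3]
      exact div_self (exp_ne_zero _)
    obtain ⟨n, hn⟩ := exp_eq_one_iff.mp h1
    rw [SetLike.mem_coe, AddSubgroup.mem_zmultiples_iff]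
    exact ⟨n, by simp only; rw [hn]; simp⟩
  have hconn : IsPreconnected (ball (0:ℂ) 1 ×ˢ ball (0:ℂ) 1) :=
    ((convex_ball _ _).prod (convex_ball _ _)).isPreconnected
  intro p hp
  have h0 : ((0:ℂ), (0:ℂ)) ∈ ball (0:ℂ) 1 ×ˢ ball (0:ℂ) 1 := by simp
  have h1 : F p - G p = F (0, 0) - G (0, 0) := hconn.constant_of_mapsTo hd
    (hF.1.continuousOn.sub hG.1.continuousOn) hm hp h0
  rw [hF.2.1, hG.2.1, sub_self] at h1
  exact sub_eq_zero.mp h1

/-! ### The function -/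

/-- `cos ψ`. -/
noncomputable def c : ℂ := 399 / 401

/-- `exp (-i ψ)`. -/
noncomputable def e : ℂ := (399 - 40 * I) / 401

/-- The half-line map. -/
noncomputable def f₀ (z : ℂ) : ℂ := z * (1 - c * z) / (1 - e * z) ^ 2

/-- The branch of the logarithm of its bracket. -/
noncomputable def F₀ (p : ℂ × ℂ) : ℂ :=
  log (1 + p.2 * ((p.1 - c) / (1 - c * p.1))) - log (1 - c * p.2)

theorem norm_c : ‖c‖ = 399 / 401 := by
  unfold c
  rw [norm_div]
  norm_num

theorem e_sq : e ^ 2 = 2 * c * e - 1 := by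
  unfold e c
  have hI : I ^ 2 = -1 := I_sq
  field_simp
  ring_nf
  rw [hI]
  ring

theorem norm_e : ‖e‖ = 1 := by
  have h : ‖e‖ ^ 2 = 1 := by
    rw [← normSq_eq_norm_sq]
    have : e = ⟨399 / 401, -(40 / 401)⟩ := by
      unfold e
      apply Complex.ext
      · simp
      · simp; norm_num
    rw [this, normSq_mk]
    norm_num
  have h0 : 0 ≤ ‖e‖ := norm_nonneg _
  nlinarith

theorem one_sub_c_re {z : ℂ} (hz : ‖z‖ < 1) : 0 < (1 - c * z).re := by
  have h1 : (c * z).re ≤ ‖c * z‖ := re_le_norm _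
  rw [norm_mul, norm_c] at h1
  rw [sub_re, one_re]
  have : 0 ≤ ‖z‖ := norm_nonneg _
  linarith

theorem one_sub_c_ne {z : ℂ} (hz : ‖z‖ < 1) : 1 - c * z ≠ 0 := by
  intro h
  have := one_sub_c_re hz
  rw [h] at this
  simp at this

theorem one_sub_e_ne {z : ℂ} (hz : ‖z‖ < 1) : 1 - e * z ≠ 0 := by
  intro h
  have h1 : e * z = 1 := (sub_eq_zero.mp h).symm
  have h2 : ‖e * z‖ = 1 := by rw [h1]; simp
  rw [norm_mul, norm_e, one_mul] at h2
  linarith

theorem norm_mob {z : ℂ} (hz : ‖z‖ < 1) : ‖(z - c) / (1 - c * z)‖ < 1 := by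
  rw [norm_div, div_lt_one (norm_pos_iff.mpr (one_sub_c_ne hz))]
  have h1 : ‖z - c‖ ^ 2 < ‖1 - c * z‖ ^ 2 := by
    rw [← normSq_eq_norm_sq, ← normSq_eq_norm_sq]
    have h2 : ‖z‖ ^ 2 < 1 := by
      have : 0 ≤ ‖z‖ := norm_nonneg _
      nlinarith
    rw [← normSq_eq_norm_sq, normSq_apply] at h2
    have hc : c = ((399 / 401 : ℝ) : ℂ) := by unfold c; push_cast; ring
    rw [hc, normSq_apply, normSq_apply]
    simp only [sub_re, sub_im, mul_re, mul_im, ofReal_re, ofReal_im, one_re, one_im]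
    nlinarith
  exact lt_of_pow_lt_pow_left₀ 2 (norm_nonneg _) h1

theorem N_re {z w : ℂ} (hz : ‖z‖ < 1) (hw : ‖w‖ < 1) :
    0 < (1 + w * ((z - c) / (1 - c * z))).re := by
  have h1 : -‖w * ((z - c) / (1 - c * z))‖ ≤ (w * ((z - c) / (1 - c * z))).re := by
    have := abs_re_le_norm (w * ((z - c) / (1 - c * z)))
    exact (abs_le.mp this).1
  rw [norm_mul] at h1
  have h2 := norm_mob hz
  have h3 : ‖w‖ * ‖(z - c) / (1 - c * z)‖ < 1 := by
    have a1 : 0 ≤ ‖w‖ := norm_nonneg _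
    have a2 : 0 ≤ ‖(z - c) / (1 - c * z)‖ := norm_nonneg _
    nlinarith
  rw [add_re, one_re]
  linarith

theorem N_ne {z w : ℂ} (hz : ‖z‖ < 1) (hw : ‖w‖ < 1) : 1 - c * (z + w) + z * w ≠ 0 := by
  have h1 : 1 - c * (z + w) + z * w = (1 - c * z) * (1 + w * ((z - c) / (1 - c * z))) := by
    have := one_sub_c_ne hz
    field_simp
    ring
  rw [h1]
  refine mul_ne_zero (one_sub_c_ne hz) ?_
  intro h
  have := N_re hz hw
  rw [h] at this
  simp at this

theorem diff_f₀ : DifferentiableOn ℂ f₀ (ball 0 1) := by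
  intro z hz
  have hz' : ‖z‖ < 1 := by simpa using hz
  apply DifferentiableAt.differentiableWithinAt
  unfold f₀
  have := one_sub_e_ne hz'
  fun_prop (disch := exact pow_ne_zero 2 this)

theorem sub_f₀ {z w : ℂ} (hz : ‖z‖ < 1) (hw : ‖w‖ < 1) :
    f₀ z - f₀ w = (z - w) * (1 - c * (z + w) + z * w) / ((1 - e * z) ^ 2 * (1 - e * w) ^ 2) := by
  unfold f₀
  have h1 := one_sub_e_ne hz
  have h2 := one_sub_e_ne hw
  rw [div_sub_div _ _ (pow_ne_zero 2 h1) (pow_ne_zero 2 h2)]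
  congr 1
  have h3 := e_sq
  linear_combination (-(z * w * (z - w)) ) * h3

theorem inj_f₀ : InjOn f₀ (ball 0 1) := by
  intro z hz w hw h
  have hz' : ‖z‖ < 1 := by simpa using hz
  have hw' : ‖w‖ < 1 := by simpa using hw
  have h1 := sub_f₀ hz' hw'
  rw [h, sub_self] at h1
  have h2 : (1 - e * z) ^ 2 * (1 - e * w) ^ 2 ≠ 0 :=
    mul_ne_zero (pow_ne_zero 2 (one_sub_e_ne hz')) (pow_ne_zero 2 (one_sub_e_ne hw'))
  have h3 : (z - w) * (1 - c * (z + w) + z * w) = 0 := by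
    have := (div_eq_zero_iff.mp h1.symm).resolve_right h2
    exact this
  exact sub_eq_zero.mp ((mul_eq_zero.mp h3).resolve_right (N_ne hz' hw'))

theorem hasDerivAt_f₀ {z : ℂ} (hz : ‖z‖ < 1) :
    HasDerivAt f₀ ((1 - 2 * c * z + z ^ 2) / (1 - e * z) ^ 4) z := by
  have h1 := one_sub_e_ne hz
  have h2 : HasDerivAt (fun z : ℂ => z * (1 - c * z)) (1 * (1 - c * z) + z * (-(c * 1))) z :=
    (hasDerivAt_id' z).mul (((hasDerivAt_id' z).const_mul c).const_sub 1)
  have h3 : HasDerivAt (fun z : ℂ => (1 - e * z) ^ 2) ((2 : ℕ) * (1 - e * z) ^ (2 - 1) * (-(e * 1))) z :=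
    (((hasDerivAt_id' z).const_mul e).const_sub 1).pow 2
  have h4 := h2.div h3 (pow_ne_zero 2 h1)
  refine h4.congr_deriv ?_
  have h5 := e_sq
  have key : (1 * (1 - c * z) + z * -(c * 1)) * (1 - e * z) ^ 2 -
      z * (1 - c * z) * ((2 : ℕ) * (1 - e * z) ^ (2 - 1) * -(e * 1)) = 1 - 2 * c * z + z ^ 2 := by
    simp only [Nat.cast_ofNat]
    linear_combination (-(z ^ 2)) * h5
  rw [key]
  congr 1
  ring

theorem class_f₀ : ClassS f₀ := by
  refine ⟨diff_f₀, inj_f₀, by simp [f₀], ?_⟩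
  rw [(hasDerivAt_f₀ (by simp)).deriv]
  simp

theorem zOver_f₀ {z : ℂ} (hz : ‖z‖ < 1) : zOver f₀ z = (1 - e * z) ^ 2 / (1 - c * z) := by
  unfold zOver
  split_ifs with h
  · simp [h]
  · unfold f₀
    have h1 := one_sub_c_ne hz
    have h2 := one_sub_e_ne hz
    field_simp

theorem bracket_f₀ {z w : ℂ} (hz : ‖z‖ < 1) (hw : ‖w‖ < 1) :
    bracket f₀ z w = (1 - c * (z + w) + z * w) / ((1 - c * z) * (1 - c * w)) := by
  unfold bracket
  have h1 := one_sub_c_ne hz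
  have h2 := one_sub_e_ne hz
  have h3 := one_sub_c_ne hw
  have h4 := one_sub_e_ne hw
  split_ifs with h
  · subst h
    rw [(hasDerivAt_f₀ hz).deriv, zOver_f₀ hz, div_pow, div_mul_div_comm,
      div_eq_div_iff (mul_ne_zero (pow_ne_zero 4 h2) (pow_ne_zero 2 h1)) (mul_ne_zero h1 h1)]
    ring
  · rw [zOver_f₀ hz, zOver_f₀ hw, sub_f₀ hz hw]
    have h5 : z - w ≠ 0 := sub_ne_zero.mpr h
    rw [div_div, div_mul_div_comm, div_mul_div_comm, div_eq_div_iff (mul_ne_zero (mul_ne_zero (mul_ne_zero (mul_ne_zero (pow_ne_zero 2 h2) (pow_ne_zero 2 h4)) h5) h1) h3) (mul_ne_zero h1 h3)]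
    ring

theorem slit_N {z w : ℂ} (hz : ‖z‖ < 1) (hw : ‖w‖ < 1) :
    1 + w * ((z - c) / (1 - c * z)) ∈ slitPlane := Or.inl (N_re hz hw)

theorem slit_c {w : ℂ} (hw : ‖w‖ < 1) : 1 - c * w ∈ slitPlane := Or.inl (one_sub_c_re hw)

theorem branch_F₀ : IsLogBranch f₀ F₀ := by
  refine ⟨?_, by simp [F₀], ?_⟩
  · rintro ⟨z, w⟩ ⟨hz, hw⟩
    have hz' : ‖z‖ < 1 := by simpa using hz
    have hw' : ‖w‖ < 1 := by simpa using hw
    apply DifferentiableAt.differentiableWithinAt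
    unfold F₀
    have h1 := one_sub_c_ne hz'
    have h2 : DifferentiableAt ℂ (fun p : ℂ × ℂ => 1 + p.2 * ((p.1 - c) / (1 - c * p.1))) (z, w) := by
      fun_prop (disch := exact h1)
    have h3 : DifferentiableAt ℂ (fun p : ℂ × ℂ => 1 - c * p.2) (z, w) := by fun_prop
    exact (h2.clog (slit_N hz' hw')).sub (h3.clog (slit_c hw'))
  · intro z hz w hw
    have hz' : ‖z‖ < 1 := by simpa using hz
    have hw' : ‖w‖ < 1 := by simpa using hw
    have h1 := one_sub_c_ne hz'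
    have h3 := one_sub_c_ne hw'
    unfold F₀
    simp only
    rw [exp_sub, exp_log (slitPlane_ne_zero (slit_N hz' hw')), exp_log h3, bracket_f₀ hz' hw']
    have h4 : 1 - c * (z + w) + z * w = (1 - c * z) * (1 + w * ((z - c) / (1 - c * z))) := by
      field_simp
      ring
    rw [h4, mul_div_mul_left _ _ h1]

/-! ### The derivatives -/

theorem iter_two {z : ℂ} (hz : ‖z‖ < 1) {w : ℂ} (hw : ‖w‖ < 1) :
    iteratedDeriv 2 (fun ω => F₀ (z, ω)) w =
      -((z - c) / (1 - c * (z + w) + z * w)) ^ 2 + (c / (1 - c * w)) ^ 2 := by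
  have h1 : ∀ w : ℂ, ‖w‖ < 1 → deriv (fun ω => F₀ (z, ω)) w =
      (z - c) / (1 - c * (z + w) + z * w) + c / (1 - c * w) := by
    intro w hw
    have a1 := one_sub_c_ne hz
    have a2 := one_sub_c_ne hw
    have a3 := N_ne hz hw
    have b1 : HasDerivAt (fun ω : ℂ => 1 + ω * ((z - c) / (1 - c * z)))
        (1 * ((z - c) / (1 - c * z))) w := ((hasDerivAt_id' w).mul_const _).const_add 1
    have b2 : HasDerivAt (fun ω : ℂ => 1 - c * ω) (-(c * 1)) w :=
      ((hasDerivAt_id' w).const_mul c).const_sub 1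
    have b3 := (b1.clog (slit_N hz hw)).sub (b2.clog (slit_c hw))
    have b4 : HasDerivAt (fun ω => F₀ (z, ω))
      (1 * ((z - c) / (1 - c * z)) / (1 + w * ((z - c) / (1 - c * z))) -
        -(c * 1) / (1 - c * w)) w := b3
    rw [b4.deriv]
    have h1 : 1 - c * (z + w) + z * w = (1 - c * z) * (1 + w * ((z - c) / (1 - c * z))) := by
      field_simp
      ring
    have h2 : 1 + w * ((z - c) / (1 - c * z)) ≠ 0 := slitPlane_ne_zero (slit_N hz hw)
    rw [h1]
    field_simp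
    ring
  rw [iteratedDeriv_succ, iteratedDeriv_one]
  have h2 : deriv (fun ω => F₀ (z, ω)) =ᶠ[nhds w]
      fun w => (z - c) / (1 - c * (z + w) + z * w) + c / (1 - c * w) := by
    filter_upwards [(isOpen_ball : IsOpen (ball (0:ℂ) 1)).mem_nhds (by simpa using hw)] with w' hw'
    exact h1 w' (by simpa using hw')
  rw [h2.deriv_eq]
  have a2 := one_sub_c_ne hw
  have a3 := N_ne hz hw
  have c1 : HasDerivAt (fun w : ℂ => 1 - c * (z + w) + z * w) (-(c * 1) + z * 1) w :=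
    ((((hasDerivAt_id' w).const_add z).const_mul c).const_sub 1).add ((hasDerivAt_id' w).const_mul z)
  have c2 : HasDerivAt (fun ω : ℂ => 1 - c * ω) (-(c * 1)) w :=
    ((hasDerivAt_id' w).const_mul c).const_sub 1
  have c3 := ((hasDerivAt_const w (z - c)).div c1 a3).add ((hasDerivAt_const w c).div c2 a2)
  have c4 : HasDerivAt (fun w => (z - c) / (1 - c * (z + w) + z * w) + c / (1 - c * w)) _ w := c3
  rw [c4.deriv]
  field_simp
  ring

theorem schw {z : ℂ} (hz : ‖z‖ < 1) :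
    schwarzian F₀ 1 2 z = -2 * (1 - c ^ 2) * (z - c) / (1 - 2 * c * z + z ^ 2) ^ 3 := by
  unfold schwarzian
  rw [iteratedDeriv_one]
  have h2 : (fun ζ => iteratedDeriv 2 (fun ω => F₀ (ζ, ω)) z) =ᶠ[nhds z]
      fun ζ => -((ζ - c) / (1 - c * (ζ + z) + ζ * z)) ^ 2 + (c / (1 - c * z)) ^ 2 := by
    filter_upwards [(isOpen_ball : IsOpen (ball (0:ℂ) 1)).mem_nhds (by simpa using hz)] with w' hw'
    exact iter_two (by simpa using hw') hz
  rw [h2.deriv_eq]
  have a3 := N_ne hz hz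
  have c1 : HasDerivAt (fun ζ : ℂ => 1 - c * (ζ + z) + ζ * z) (-(c * 1) + 1 * z) z :=
    ((((hasDerivAt_id' z).add_const z).const_mul c).const_sub 1).add ((hasDerivAt_id' z).mul_const z)
  have c2 : HasDerivAt (fun ζ : ℂ => ζ - c) 1 z := (hasDerivAt_id' z).sub_const c
  have c3 := ((c2.div c1 a3).pow 2).neg.add_const ((c / (1 - c * z)) ^ 2)
  have c4 : HasDerivAt (fun ζ => -((ζ - c) / (1 - c * (ζ + z) + ζ * z)) ^ 2 +
    (c / (1 - c * z)) ^ 2) _ z := c3
  rw [c4.deriv]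
  simp only [Pi.div_apply]
  have a4 : 1 - 2 * c * z + z ^ 2 ≠ 0 := by
    have : 1 - 2 * c * z + z ^ 2 = 1 - c * (z + z) + z * z := by ring
    rw [this]; exact a3
  have e1 : 1 - c * (z + z) + z * z = 1 - 2 * c * z + z ^ 2 := by ring
  rw [e1]
  have e2 : 1 * (1 - 2 * c * z + z ^ 2) - (z - c) * (-(c * 1) + 1 * z) = 1 - c ^ 2 := by ring
  rw [e2]
  generalize 1 - 2 * c * z + z ^ 2 = D at a4
  rw [show (2 - 1 : ℕ) = 1 from rfl, pow_one]
  simp only [Nat.cast_ofNat]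
  field_simp

/-- For `p = 1`, `q = 2` there is `f` in `S`, with the branch `F` of the problem, such that
`|S_f^{[1,2]}(z)| (1 - |z|^2)^3` exceeds `(1 + 2 - 1)!` at some point of the unit disc. -/
theorem result : ∃ f : ℂ → ℂ, ClassS f ∧ ∃ F : ℂ × ℂ → ℂ, IsLogBranch f F ∧
    ∃ z ∈ ball (0 : ℂ) 1,
      ((1 + 2 - 1).factorial : ℝ) < ‖schwarzian F 1 2 z‖ * (1 - ‖z‖ ^ 2) ^ (1 + 2) := by
  have hz : ‖(7 / 8 : ℂ)‖ = 7 / 8 := by
    rw [norm_div]; norm_num
  refine ⟨f₀, class_f₀, F₀, branch_F₀, 7 / 8, by rw [mem_ball_zero_iff, hz]; norm_num, ?_⟩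
  rw [schw (by rw [hz]; norm_num), hz]
  have h1 : -2 * (1 - c ^ 2) * (7 / 8 - c) / (1 - 2 * c * (7 / 8) + (7 / 8) ^ 2) ^ 3 =
      ((-2 * (1 - (399 / 401) ^ 2) * (7 / 8 - 399 / 401) /
        (1 - 2 * (399 / 401) * (7 / 8) + (7 / 8) ^ 2) ^ 3 : ℝ) : ℂ) := by
    unfold c
    push_cast
    ring
  rw [h1, norm_real, Real.norm_eq_abs, abs_of_pos (by norm_num)]
  norm_num [Nat.factorial]

end Pool.Agent.Results.MP_9404a8_an.KoebeBoundFails
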